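import Pool.Agent.Q83.Carl.Defs

/-!
Carleson operators with phase `|t| ^ ε`: definitions and the principal value formula.
-/

set_option autoImplicit false
open MeasureTheory Filter Topology Set
open scoped ENNReal NNReal Real SchwartzMap

namespace Q83.Carl

/-- The odd difference quotient. -/
noncomputable def dq (f : ℝ → ℂ) (x t : ℝ) : ℂ := (f (x - t) - f (x + t)) / (t : ℂ)

lemma dq_bound (f : 𝓢(ℝ, ℂ)) : ∃ A : ℝ, 0 ≤ A ∧ ∀ x t : ℝ, 0 < t →
    ‖dq f x t‖ ≤ A * (1 + |x|) * (1 + t ^ 2)⁻¹ := by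
  obtain ⟨C0, hC0p, hC0⟩ := f.decay 0 0
  obtain ⟨C1, hC1p, hC1⟩ := f.decay 1 0
  obtain ⟨C2, hC2p, hC2⟩ := f.decay 0 1
  have h0 : ∀ x, ‖f x‖ ≤ C0 := fun x => by simpa using hC0 x
  have h1 : ∀ x, |x| * ‖f x‖ ≤ C1 := fun x => by simpa using hC1 x
  have h2 : ∀ x, ‖deriv f x‖ ≤ C2 := fun x => by
    have := hC2 x
    rw [pow_zero, one_mul, norm_iteratedFDeriv_one, ] at this
    rwa [norm_deriv_eq_norm_fderiv]
  have hlip : ∀ x y : ℝ, ‖f x - f y‖ ≤ C2 * |x - y| := by
    intro x y
    have := Convex.norm_image_sub_le_of_norm_deriv_le (f := f) (s := univ) (C := C2)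
      (fun x _ => f.differentiableAt) (fun x _ => h2 x) convex_univ (mem_univ y) (mem_univ x)
    simpa [Real.norm_eq_abs] using this
  have hdec : ∀ x : ℝ, (1 + |x|) * ‖f x‖ ≤ C0 + C1 := by
    intro x
    have := h0 x
    have := h1 x
    linarith
  refine ⟨4 * C2 + 2 * (C0 + C1), by positivity, ?_⟩
  intro x t ht
  unfold dq
  rw [norm_div, Complex.norm_real, Real.norm_eq_abs, abs_of_pos ht]
  have hx1 : 1 ≤ 1 + |x| := by linarith [abs_nonneg x]
  rcases le_or_gt t 1 with h | h
  · have h3 : ‖f (x - t) - f (x + t)‖ ≤ C2 * (2 * t) := by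
      refine (hlip _ _).trans (le_of_eq ?_)
      rw [show x - t - (x + t) = -(2 * t) by ring, abs_neg, abs_of_pos (by positivity)]
    have h4 : ‖f (x - t) - f (x + t)‖ / t ≤ 2 * C2 := by
      rw [div_le_iff₀ ht]
      linarith
    have h5 : (1 : ℝ) / 2 ≤ (1 + t ^ 2)⁻¹ := by
      rw [div_eq_mul_inv, one_mul]
      apply inv_anti₀ (by positivity)
      nlinarith
    calc ‖f (x - t) - f (x + t)‖ / t ≤ 2 * C2 := h4
      _ = 4 * C2 * 1 * (1 / 2) := by ring
      _ ≤ (4 * C2 + 2 * (C0 + C1)) * (1 + |x|) * (1 + t ^ 2)⁻¹ := by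
        gcongr
        linarith
  · have h3 : ∀ y : ℝ, |y| = t → (1 + t) * ‖f (x + y)‖ ≤ (1 + |x|) * (C0 + C1) := by
      intro y hy
      have h6 : 1 + t ≤ (1 + |x|) * (1 + |x + y|) := by
        have : t ≤ |x| + |x + y| := by
          rw [← hy]
          calc |y| = |(x + y) - x| := by ring_nf
            _ ≤ |x + y| + |x| := abs_sub _ _
            _ = |x| + |x + y| := by ring
        nlinarith [abs_nonneg x, abs_nonneg (x + y), mul_nonneg (abs_nonneg x) (abs_nonneg (x + y))]
      calc (1 + t) * ‖f (x + y)‖ ≤ (1 + |x|) * (1 + |x + y|) * ‖f (x + y)‖ := by gcongr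
        _ = (1 + |x|) * ((1 + |x + y|) * ‖f (x + y)‖) := by ring
        _ ≤ (1 + |x|) * (C0 + C1) := by gcongr; exact hdec _
    have h4 := h3 t (abs_of_pos ht)
    have h5 := h3 (-t) (by rw [abs_neg, abs_of_pos ht])
    rw [← sub_eq_add_neg] at h5
    have h6 : (1 + t) * ‖f (x - t) - f (x + t)‖ ≤ 2 * (C0 + C1) * (1 + |x|) := by
      calc (1 + t) * ‖f (x - t) - f (x + t)‖ ≤ (1 + t) * (‖f (x - t)‖ + ‖f (x + t)‖) := by
            gcongr
            exact norm_sub_le _ _
        _ ≤ 2 * (C0 + C1) * (1 + |x|) := by linarith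
    rw [div_le_iff₀ ht, mul_assoc, mul_comm (1 + t ^ 2)⁻¹ t, ← div_eq_mul_inv, ← mul_div_assoc,
      le_div_iff₀ (by positivity)]
    have h7 : ‖f (x - t) - f (x + t)‖ * (1 + t ^ 2) ≤ t * ((1 + t) * ‖f (x - t) - f (x + t)‖) := by
      have : 1 + t ^ 2 ≤ t * (1 + t) := by nlinarith
      calc ‖f (x - t) - f (x + t)‖ * (1 + t ^ 2) ≤ ‖f (x - t) - f (x + t)‖ * (t * (1 + t)) := by
            gcongr
        _ = _ := by ring
    calc ‖f (x - t) - f (x + t)‖ * (1 + t ^ 2)
        ≤ t * ((1 + t) * ‖f (x - t) - f (x + t)‖) := h7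
      _ ≤ t * (2 * (C0 + C1) * (1 + |x|)) := by gcongr
      _ ≤ (4 * C2 + 2 * (C0 + C1)) * (1 + |x|) * t := by
        have : 0 ≤ 4 * C2 * (1 + |x|) * t := by positivity
        nlinarith

lemma measurable_dq (f : 𝓢(ℝ, ℂ)) (x : ℝ) : Measurable (dq f x) := by
  unfold dq
  have h1 : Measurable f := f.continuous.measurable
  fun_prop

lemma integrableOn_dq (f : 𝓢(ℝ, ℂ)) (x : ℝ) (m : ℝ → ℂ) (hm : Measurable m)
    (hm1 : ∀ t, ‖m t‖ ≤ 1) : IntegrableOn (fun t => m t * dq f x t) (Ioi 0) := by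
  obtain ⟨A, hA, hb⟩ := dq_bound f
  have h1 : Integrable (fun t : ℝ => A * (1 + |x|) * (1 + t ^ 2)⁻¹) :=
    integrable_inv_one_add_sq.const_mul _
  refine Integrable.mono' h1.integrableOn (hm.mul (measurable_dq f x)).aestronglyMeasurable ?_
  refine (ae_restrict_iff' measurableSet_Ioi).2 (ae_of_all _ fun t ht => ?_)
  rw [norm_mul]
  calc ‖m t‖ * ‖dq f x t‖ ≤ 1 * ‖dq f x t‖ := by gcongr; exact hm1 t
    _ ≤ _ := by rw [one_mul]; exact hb x t ht

/-- The modulation factor as a function of `t > 0`. -/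
noncomputable def ph (ε l t : ℝ) : ℂ := Complex.exp (Complex.I * ((l * |t| ^ ε : ℝ) : ℂ))

lemma measurable_ph (ε l : ℝ) : Measurable (ph ε l) := by
  unfold ph
  have h1 : Measurable fun t : ℝ => |t| ^ ε := by
    have : Measurable fun t : ℝ => |t| := continuous_abs.measurable
    exact this.pow_const ε
  fun_prop

lemma norm_ph (ε l t : ℝ) : ‖ph ε l t‖ = 1 := by
  unfold ph
  rw [mul_comm, Complex.norm_exp_ofReal_mul_I]

lemma ph_neg (ε l t : ℝ) : ph ε l (-t) = ph ε l t := by
  unfold ph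
  rw [abs_neg]

lemma truncated_eq (ε l : ℝ) (f : 𝓢(ℝ, ℂ)) (x δ : ℝ) (hδ : 0 < δ) :
    truncated ε l f x δ = ∫ t in Ioo δ (1 / δ), ph ε l t * dq f x t := by
  set S : Set ℝ := {t : ℝ | δ < |t| ∧ |t| < 1 / δ} with hS
  have hSm : MeasurableSet S :=
    (measurableSet_lt measurable_const continuous_abs.measurable).inter
      (measurableSet_lt continuous_abs.measurable measurable_const)
  set F : ℝ → ℂ := S.indicator fun t => ph ε l t / (t : ℂ) * f (x - t) with hF
  have hmF : Measurable F := by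
    apply Measurable.indicator _ hSm
    have h1 := measurable_ph ε l
    have h2 : Measurable f := f.continuous.measurable
    fun_prop
  have hint : Integrable F := by
    have h1 : Integrable fun t : ℝ => δ⁻¹ * ‖f (x - t)‖ :=
      ((f.integrable.comp_sub_left x).norm).const_mul _
    refine Integrable.mono' h1 hmF.aestronglyMeasurable (ae_of_all _ fun t => ?_)
    rw [hF]
    by_cases ht : t ∈ S
    · rw [indicator_of_mem ht, norm_mul, norm_div, norm_ph, Complex.norm_real, Real.norm_eq_abs,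
        one_div]
      gcongr
      exact ht.1.le
    · rw [indicator_of_notMem ht, norm_zero]
      positivity
  have h1 : truncated ε l f x δ = ∫ t, F t := by
    unfold truncated
    rw [← integral_indicator (by
      have : MeasurableSet ((fun y : ℝ => x - y) ⁻¹' S) := hSm.preimage (by fun_prop)
      exact this), ← integral_sub_left_eq_self F volume x]
    congr 1
    funext y
    by_cases hy : x - y ∈ S
    · rw [indicator_of_mem (show y ∈ {y : ℝ | δ < |x - y| ∧ |x - y| < 1 / δ} from hy), hF,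
        indicator_of_mem hy]
      unfold ph
      rw [sub_sub_cancel]
    · rw [indicator_of_notMem (show y ∉ {y : ℝ | δ < |x - y| ∧ |x - y| < 1 / δ} from hy), hF,
        indicator_of_notMem hy]
  have h2 : ∫ t, F t = ∫ t in Ioi (0 : ℝ), (F t + F (-t)) := by
    rw [integral_add hint.integrableOn hint.comp_neg.integrableOn, integral_comp_neg_Ioi, neg_zero,
      ← integral_add_compl (measurableSet_Ioi : MeasurableSet (Ioi (0 : ℝ))) hint, compl_Ioi]
  rw [h1, h2, ← integral_indicator measurableSet_Ioi, ← integral_indicator measurableSet_Ioo]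
  congr 1
  funext t
  by_cases ht : t ∈ Ioo δ (1 / δ)
  · have ht0 : 0 < t := hδ.trans ht.1
    have h3 : t ∈ S := by
      rw [hS, mem_ofPred_eq, abs_of_pos ht0]
      exact ht
    have h4 : -t ∈ S := by
      rw [hS, mem_ofPred_eq, abs_neg, abs_of_pos ht0]
      exact ht
    rw [indicator_of_mem (show t ∈ Ioi 0 from ht0), indicator_of_mem ht, hF, indicator_of_mem h3,
      indicator_of_mem h4, ph_neg, sub_neg_eq_add]
    unfold dq
    push_cast
    ring
  · rw [indicator_of_notMem ht]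
    by_cases ht0 : t ∈ Ioi (0 : ℝ)
    · have h3 : t ∉ S := by
        rw [hS, mem_ofPred_eq, abs_of_pos ht0]
        exact ht
      have h4 : -t ∉ S := by
        rw [hS, mem_ofPred_eq, abs_neg, abs_of_pos ht0]
        exact ht
      rw [indicator_of_mem ht0, hF, indicator_of_notMem h3, indicator_of_notMem h4, add_zero]
    · rw [indicator_of_notMem ht0]

lemma tendsto_truncated (ε l : ℝ) (f : 𝓢(ℝ, ℂ)) (x : ℝ) :
    Tendsto (truncated ε l f x) (𝓝[>] 0) (𝓝 (∫ t in Ioi (0 : ℝ), ph ε l t * dq f x t)) := by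
  have hI := integrableOn_dq f x (ph ε l) (measurable_ph ε l) fun t => (norm_ph ε l t).le
  have h1 : (fun δ => ∫ t, (Ioo δ (1 / δ)).indicator (fun t => ph ε l t * dq f x t) t)
      =ᶠ[𝓝[>] 0] truncated ε l f x := by
    filter_upwards [self_mem_nhdsWithin] with δ hδ
    rw [truncated_eq ε l f x δ hδ, integral_indicator measurableSet_Ioo]
  refine Tendsto.congr' h1 ?_
  rw [← integral_indicator measurableSet_Ioi]
  refine tendsto_integral_filter_of_dominated_convergence
    ((Ioi (0 : ℝ)).indicator fun t => ‖ph ε l t * dq f x t‖) ?_ ?_ ?_ ?_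
  · refine Eventually.of_forall fun δ => ?_
    exact (((measurable_ph ε l).mul (measurable_dq f x)).indicator measurableSet_Ioo).aestronglyMeasurable
  · filter_upwards [self_mem_nhdsWithin] with δ hδ
    refine ae_of_all _ fun t => ?_
    by_cases ht : t ∈ Ioo δ (1 / δ)
    · rw [indicator_of_mem ht, indicator_of_mem (show t ∈ Ioi 0 from lt_trans hδ ht.1)]
    · rw [indicator_of_notMem ht, norm_zero]
      exact indicator_nonneg (fun _ _ => norm_nonneg _) _
  · exact (integrable_indicator_iff measurableSet_Ioi).2 hI.norm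
  · refine ae_of_all _ fun t => ?_
    apply tendsto_const_nhds.congr'
    by_cases ht : t ∈ Ioi (0 : ℝ)
    · have ht' : (0 : ℝ) < t := ht
      have h2 : ∀ᶠ δ in 𝓝[>] (0 : ℝ), δ < t :=
        nhdsWithin_le_nhds (Iio_mem_nhds ht')
      have h3 : ∀ᶠ δ in 𝓝[>] (0 : ℝ), δ < 1 / t :=
        nhdsWithin_le_nhds (Iio_mem_nhds (by positivity))
      filter_upwards [h2, h3, self_mem_nhdsWithin] with δ h2 h3 h4
      have h4' : (0 : ℝ) < δ := h4
      rw [indicator_of_mem ht, indicator_of_mem]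
      refine ⟨h2, ?_⟩
      rw [lt_div_iff₀ h4']
      rw [lt_div_iff₀ ht'] at h3
      linarith
    · filter_upwards [self_mem_nhdsWithin] with δ hδ
      rw [indicator_of_notMem ht, indicator_of_notMem]
      intro h
      exact ht (lt_trans (show (0 : ℝ) < δ from hδ) h.1)

lemma H_eq (ε l : ℝ) (f : 𝓢(ℝ, ℂ)) (x : ℝ) :
    H ε l f x = ∫ t in Ioi (0 : ℝ), ph ε l t * dq f x t :=
  (tendsto_truncated ε l f x).limUnder_eq

end Q83.Carl
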