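import Pool.Agent.Q83.Carl.Final

/-!
The blow up of the norms.
-/

set_option autoImplicit false
open MeasureTheory Filter Topology Set
open scoped ENNReal NNReal Real SchwartzMap FourierTransform ContDiff

namespace Q83.Carl

lemma one_le_norm (u : ℝ) : 1 ≤ ‖1 - Complex.I * (u : ℂ)‖ := by
  have h1 : (1 - Complex.I * (u : ℂ)).re = 1 := by simp
  calc (1 : ℝ) = |(1 - Complex.I * (u : ℂ)).re| := by rw [h1, abs_one]
    _ ≤ _ := Complex.abs_re_le_norm _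

lemma eLpNorm_schwartz (f : 𝓢(ℝ, ℂ)) :
    eLpNorm f 2 volume = ENNReal.ofReal (√(∫ x, ‖f x‖ ^ 2)) := by
  rw [(f.memLp 2 volume).eLpNorm_eq_integral_rpow_norm (by norm_num) (by norm_num)]
  congr 1
  rw [Real.sqrt_eq_rpow]
  simp

lemma eLpNorm_test (a : ℝ) (ha : 0 < a) (N : ℕ) :
    eLpNorm (𝓕⁻ (FF a ha N) : 𝓢(ℝ, ℂ)) 2 volume = ENNReal.ofReal (√(N * ∫ z, bump z ^ 2)) := by
  rw [eLpNorm_schwartz, ← SchwartzMap.integral_norm_sq_fourier,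
    FourierTransform.fourier_fourierInv_eq, norm_sq_FF]

theorem blow (C : ℝ≥0) : ∃ (f : 𝓢(ℝ, ℂ)) (ε₀ : ℝ), 0 < ε₀ ∧ ∀ ε : ℝ, 0 < ε → ε < ε₀ →
    (C : ℝ≥0∞) * eLpNorm f 2 volume < eLpNorm (maximal ε f) 2 volume := by
  obtain ⟨a, ha, ha1, hlow⟩ := exists_lower
  set κ : ℝ := ‖II 0‖ with hκ
  have hκ0 : 0 < κ := norm_II_zero
  set A : ℝ := ∫ z, bump z with hA
  have hA0 : 0 < A := integral_bump_pos
  set B : ℝ := ∫ z, bump z ^ 2 with hB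
  have hB0 : 0 ≤ B := integral_nonneg fun _ => sq_nonneg _
  obtain ⟨N, hN⟩ := exists_nat_gt ((C : ℝ) ^ 2 * B / (2 * (κ * A / 4) ^ 2))
  have hN0 : 0 < (N : ℝ) := lt_of_le_of_lt (by positivity) hN
  set m : ℝ := κ * N * A / 4 with hm
  have hm0 : 0 < m := by positivity
  have hlim := uniform_limit (𝓕⁻ (FF a ha N) : 𝓢(ℝ, ℂ)) m hm0
  obtain ⟨ε₀, hε₀, hball⟩ := Metric.mem_nhdsWithin_iff.1 hlim
  refine ⟨𝓕⁻ (FF a ha N), ε₀, hε₀, fun ε hε hεε => ?_⟩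
  have hεm := hball ⟨by rw [Metric.mem_ball, Real.dist_eq, sub_zero, abs_of_pos hε]; exact hεε,
    (hε : ε ∈ Ioi (0 : ℝ))⟩
  rw [mem_ofPred_eq] at hεm
  have hpt : ∀ x : ℝ, |x| ≤ 1 → ‖m‖ₑ ≤ maximal ε (𝓕⁻ (FF a ha N) : 𝓢(ℝ, ℂ)) x := by
    intro x hx
    obtain ⟨u, hu0, hu1, hu⟩ := sum_bound a ha ha1 N x hx
    have h1 : 2 * m ≤ ‖T (𝓕⁻ (FF a ha N) : 𝓢(ℝ, ℂ)) u x‖ := by
      have h2 : ‖(-2 * Complex.I : ℂ)‖ = 2 := by simp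
      rw [T_formula (FF a ha N) _ (FF_zero a ha N) u x, norm_mul, h2, norm_mul, norm_mul]
      have h3 := hlow u hu0 hu1
      have h4 := one_le_norm u
      calc 2 * m = 2 * (1 * (κ / 2 * (N * (1 / 2 * A)))) := by rw [hm]; ring
        _ ≤ _ := by gcongr
    have h2 := hεm u hu0 (hu1.trans ha1) x hx
    have h3 : m ≤ ‖H ε (u / ε) (𝓕⁻ (FF a ha N) : 𝓢(ℝ, ℂ)) x‖ := by linarith
    calc ‖m‖ₑ ≤ ‖H ε (u / ε) (𝓕⁻ (FF a ha N) : 𝓢(ℝ, ℂ)) x‖ₑ := by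
          rw [enorm_le_iff_norm_le, Real.norm_eq_abs, abs_of_pos hm0]
          exact h3
      _ ≤ _ := le_iSup (fun l => ‖H ε l (𝓕⁻ (FF a ha N) : 𝓢(ℝ, ℂ)) x‖ₑ) (u / ε)
  have hge : eLpNorm ((Icc (-1 : ℝ) 1).indicator fun _ => m) 2 volume ≤
      eLpNorm (maximal ε (𝓕⁻ (FF a ha N) : 𝓢(ℝ, ℂ))) 2 volume := by
    apply eLpNorm_mono_enorm
    intro x
    by_cases hx : x ∈ Icc (-1 : ℝ) 1
    · rw [indicator_of_mem hx]
      exact hpt x (abs_le.2 hx)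
    · rw [indicator_of_notMem hx]
      simp
  refine lt_of_lt_of_le ?_ hge
  rw [eLpNorm_test, eLpNorm_indicator_const measurableSet_Icc (by norm_num) (by norm_num),
    Real.volume_Icc, Real.enorm_eq_ofReal hm0.le,
    ENNReal.ofReal_rpow_of_nonneg (by norm_num) (by norm_num),
    ← ENNReal.ofReal_mul hm0.le, ← ENNReal.ofReal_coe_nnreal, ← ENNReal.ofReal_mul C.coe_nonneg]
  rw [ENNReal.ofReal_lt_ofReal_iff (by positivity)]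
  have h5 : ((1 : ℝ) - -1) ^ (1 / (2 : ℝ≥0∞).toReal) = √2 := by
    rw [Real.sqrt_eq_rpow]
    norm_num
  rw [h5]
  have h6 : (C : ℝ) * √(N * B) = √((C : ℝ) ^ 2 * (N * B)) := by
    rw [Real.sqrt_mul (sq_nonneg _), Real.sqrt_sq C.coe_nonneg]
  have h7 : m * √2 = √(m ^ 2 * 2) := by
    rw [Real.sqrt_mul (sq_nonneg _), Real.sqrt_sq hm0.le]
  rw [h6, h7]
  apply Real.sqrt_lt_sqrt (by positivity)
  rw [div_lt_iff₀ (by positivity)] at hN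
  calc (C : ℝ) ^ 2 * (N * B) = N * ((C : ℝ) ^ 2 * B) := by ring
    _ < N * (N * (2 * (κ * A / 4) ^ 2)) := by gcongr
    _ = m ^ 2 * 2 := by rw [hm]; ring

end Q83.Carl
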