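import Pool.Agent.Q83.Carl.Basic

/-!
The limit `ε → 0` of the modulated operators.
-/

set_option autoImplicit false
open MeasureTheory Filter Topology Set
open scoped ENNReal NNReal Real SchwartzMap

namespace Q83.Carl

/-- The imaginary power `t ^ (i μ)`. -/
noncomputable def pw (u t : ℝ) : ℂ := Complex.exp (Complex.I * ((u * Real.log t : ℝ) : ℂ))

/-- The limiting operator. -/
noncomputable def T (f : ℝ → ℂ) (u x : ℝ) : ℂ := ∫ t in Ioi (0 : ℝ), pw u t * dq f x t

lemma norm_pw (u t : ℝ) : ‖pw u t‖ = 1 := by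
  unfold pw
  rw [mul_comm, Complex.norm_exp_ofReal_mul_I]

lemma measurable_pw (u : ℝ) : Measurable (pw u) := by
  unfold pw
  have h1 : Measurable Real.log := Real.measurable_log
  fun_prop

lemma norm_exp_sub_exp (a b : ℝ) :
    ‖Complex.exp (Complex.I * (a : ℂ)) - Complex.exp (Complex.I * (b : ℂ))‖ ≤ |a - b| := by
  have h1 : Complex.exp (Complex.I * (a : ℂ)) - Complex.exp (Complex.I * (b : ℂ)) =
      Complex.exp (Complex.I * (b : ℂ)) * (Complex.exp (Complex.I * ((a - b : ℝ) : ℂ)) - 1) := by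
    rw [mul_sub, ← Complex.exp_add, mul_one]
    congr 2
    push_cast
    ring
  rw [h1, norm_mul, mul_comm Complex.I (b : ℂ), Complex.norm_exp_ofReal_mul_I, one_mul]
  exact Real.norm_exp_I_mul_ofReal_sub_one_le

/-- The difference of the phases. -/
noncomputable def hh (ε t : ℝ) : ℝ := min 2 |(t ^ ε - 1) / ε - Real.log t|

lemma measurable_hh (ε : ℝ) : Measurable (hh ε) := by
  unfold hh
  have h1 : Measurable Real.log := Real.measurable_log
  have h2 : Measurable fun t : ℝ => t ^ ε := measurable_id.pow_const ε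
  exact measurable_const.min
    (continuous_abs.measurable.comp (((h2.sub_const 1).div_const ε).sub h1))

lemma hh_nonneg (ε t : ℝ) : 0 ≤ hh ε t := le_min (by norm_num) (abs_nonneg _)

lemma hh_le (ε t : ℝ) : hh ε t ≤ 2 := min_le_left _ _

lemma tendsto_hh (t : ℝ) (ht : 0 < t) : Tendsto (fun ε => hh ε t) (𝓝[>] 0) (𝓝 0) := by
  have h1 := (Real.hasStrictDerivAt_const_rpow ht 0).hasDerivAt.tendsto_slope_zero
  have h2 : Tendsto (fun ε : ℝ => (t ^ ε - 1) / ε) (𝓝[>] 0) (𝓝 (Real.log t)) := by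
    have h3 : 𝓝[>] (0 : ℝ) ≤ 𝓝[≠] 0 := nhdsWithin_mono _ fun x hx => ne_of_gt hx
    have h5 := h1.mono_left h3
    rw [Real.rpow_zero, one_mul] at h5
    refine h5.congr' ?_
    filter_upwards with ε
    rw [zero_add, smul_eq_mul, div_eq_mul_inv, mul_comm]
  have h4 : Tendsto (fun ε : ℝ => |(t ^ ε - 1) / ε - Real.log t|) (𝓝[>] 0) (𝓝 0) := by
    have := (h2.sub_const (Real.log t)).abs
    simpa using this
  exact squeeze_zero (fun ε => hh_nonneg ε t) (fun ε => min_le_right _ _) h4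

lemma tendsto_int_hh : Tendsto (fun ε => ∫ t in Ioi (0 : ℝ), hh ε t * (1 + t ^ 2)⁻¹) (𝓝[>] 0)
    (𝓝 0) := by
  have h1 : Integrable (fun t : ℝ => 2 * (1 + t ^ 2)⁻¹) (volume.restrict (Ioi 0)) :=
    (integrable_inv_one_add_sq.const_mul _).integrableOn
  have h2 : ∫ t in Ioi (0 : ℝ), (0 : ℝ) = 0 := by simp
  suffices h : Tendsto (fun ε => ∫ t in Ioi (0 : ℝ), hh ε t * (1 + t ^ 2)⁻¹) (𝓝[>] 0)
    (𝓝 (∫ t in Ioi (0 : ℝ), (0 : ℝ))) by rwa [h2] at h
  refine tendsto_integral_filter_of_dominated_convergence (fun t : ℝ => 2 * (1 + t ^ 2)⁻¹)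
    ?_ ?_ h1 ?_
  · refine Eventually.of_forall fun ε => ?_
    have h3 := measurable_hh ε
    exact (h3.mul (by fun_prop)).aestronglyMeasurable
  · refine Eventually.of_forall fun ε => ae_of_all _ fun t => ?_
    rw [Real.norm_eq_abs, abs_of_nonneg (mul_nonneg (hh_nonneg _ _) (by positivity))]
    gcongr
    exact hh_le _ _
  · refine (ae_restrict_iff' measurableSet_Ioi).2 (ae_of_all _ fun t ht => ?_)
    have := (tendsto_hh t ht).mul_const (1 + t ^ 2)⁻¹
    simpa using this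

lemma phase_le (ε u t : ℝ) (hu0 : 0 ≤ u) (hu1 : u ≤ 1) (ht : 0 < t) :
    ‖Complex.exp (-(Complex.I * ((u / ε : ℝ) : ℂ))) * ph ε (u / ε) t - pw u t‖ ≤ hh ε t := by
  have h1 : Complex.exp (-(Complex.I * ((u / ε : ℝ) : ℂ))) * ph ε (u / ε) t =
      Complex.exp (Complex.I * ((u * ((t ^ ε - 1) / ε) : ℝ) : ℂ)) := by
    unfold ph
    rw [← Complex.exp_add, abs_of_pos ht]
    congr 1
    push_cast
    field_simp
    ring
  rw [h1]
  unfold pw hh
  refine le_min ?_ ?_
  · refine (norm_sub_le _ _).trans ?_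
    rw [mul_comm, Complex.norm_exp_ofReal_mul_I, mul_comm, Complex.norm_exp_ofReal_mul_I]
    norm_num
  · refine (norm_exp_sub_exp _ _).trans ?_
    rw [← mul_sub, abs_mul, abs_of_nonneg hu0]
    exact mul_le_of_le_one_left (abs_nonneg _) hu1

theorem uniform_limit (f : 𝓢(ℝ, ℂ)) (η : ℝ) (hη : 0 < η) :
    ∀ᶠ ε in 𝓝[>] (0 : ℝ), ∀ u : ℝ, 0 ≤ u → u ≤ 1 → ∀ x : ℝ, |x| ≤ 1 →
      ‖T f u x‖ - η ≤ ‖H ε (u / ε) f x‖ := by
  obtain ⟨A, hA, hb⟩ := dq_bound f
  have h1 := tendsto_int_hh.const_mul (A * 2)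
  rw [mul_zero] at h1
  filter_upwards [h1.eventually (Iio_mem_nhds hη), self_mem_nhdsWithin] with ε h2 hε u hu0 hu1 x hx
  have hε' : (0 : ℝ) < ε := hε
  have h3 : ‖Complex.exp (-(Complex.I * ((u / ε : ℝ) : ℂ)))‖ = 1 := by
    rw [show -(Complex.I * ((u / ε : ℝ) : ℂ)) = ((-(u / ε) : ℝ) : ℂ) * Complex.I by push_cast; ring,
      Complex.norm_exp_ofReal_mul_I]
  have h4 : ‖Complex.exp (-(Complex.I * ((u / ε : ℝ) : ℂ))) * H ε (u / ε) f x - T f u x‖ ≤ η := by
    rw [H_eq]
    unfold T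
    rw [← integral_const_mul, ← integral_sub]
    · calc _ ≤ ∫ t in Ioi (0 : ℝ), ‖Complex.exp (-(Complex.I * ((u / ε : ℝ) : ℂ))) *
            (ph ε (u / ε) t * dq f x t) - pw u t * dq f x t‖ := norm_integral_le_integral_norm _
        _ ≤ ∫ t in Ioi (0 : ℝ), A * 2 * (hh ε t * (1 + t ^ 2)⁻¹) := by
          apply integral_mono_of_nonneg (ae_of_all _ fun t => norm_nonneg _)
          · apply Integrable.const_mul
            have h5 : Integrable (fun t : ℝ => 2 * (1 + t ^ 2)⁻¹) (volume.restrict (Ioi 0)) :=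
              (integrable_inv_one_add_sq.const_mul _).integrableOn
            refine Integrable.mono' h5 ?_ (ae_of_all _ fun t => ?_)
            · have h3 := measurable_hh ε
              exact (h3.mul (by fun_prop)).aestronglyMeasurable
            · rw [Real.norm_eq_abs, abs_of_nonneg (mul_nonneg (hh_nonneg _ _) (by positivity))]
              gcongr
              exact hh_le _ _
          · refine (ae_restrict_iff' measurableSet_Ioi).2 (ae_of_all _ fun t ht => ?_)
            simp only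
            rw [← mul_assoc, ← sub_mul, norm_mul]
            have h6 := phase_le ε u t hu0 hu1 ht
            have h7 := hb x t ht
            have h8 := hh_nonneg ε t
            calc _ ≤ hh ε t * (A * (1 + |x|) * (1 + t ^ 2)⁻¹) := by gcongr
              _ ≤ hh ε t * (A * (1 + 1) * (1 + t ^ 2)⁻¹) := by
                have := hh_nonneg ε t
                gcongr
              _ = _ := by ring
        _ = A * 2 * ∫ t in Ioi (0 : ℝ), (hh ε t * (1 + t ^ 2)⁻¹) := integral_const_mul _ _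
        _ ≤ η := h2.le
    · exact (integrableOn_dq f x _ (measurable_ph _ _) fun t => (norm_ph _ _ _).le).const_mul _
    · exact integrableOn_dq f x _ (measurable_pw _) fun t => (norm_pw _ _).le
  have h5 : ‖T f u x‖ ≤ ‖Complex.exp (-(Complex.I * ((u / ε : ℝ) : ℂ))) * H ε (u / ε) f x‖ + η := by
    calc ‖T f u x‖ = ‖Complex.exp (-(Complex.I * ((u / ε : ℝ) : ℂ))) * H ε (u / ε) f x -
          (Complex.exp (-(Complex.I * ((u / ε : ℝ) : ℂ))) * H ε (u / ε) f x - T f u x)‖ := by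
            rw [sub_sub_cancel]
      _ ≤ _ := (norm_sub_le _ _).trans (by gcongr)
  rw [norm_mul, h3, one_mul] at h5
  linarith

end Q83.Carl
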