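import Mathlib

/-!
The Carleson type operators with phase `|t| ^ ε`.
-/

set_option autoImplicit false
open MeasureTheory Filter Topology Set
open scoped ENNReal NNReal Real SchwartzMap

namespace Q83.Carl

/-- The truncated integral, over `δ < |x - y| < 1 / δ`. -/
noncomputable def truncated (ε l : ℝ) (f : ℝ → ℂ) (x δ : ℝ) : ℂ :=
  ∫ y in {y : ℝ | δ < |x - y| ∧ |x - y| < 1 / δ},
    Complex.exp (Complex.I * ((l * |x - y| ^ ε : ℝ) : ℂ)) / ((x - y : ℝ) : ℂ) * f y

/-- The principal value integral: the limit of the truncated integrals as `δ → 0+`. -/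
noncomputable def H (ε l : ℝ) (f : ℝ → ℂ) (x : ℝ) : ℂ :=
  limUnder (𝓝[>] (0 : ℝ)) (truncated ε l f x)

/-- The maximally modulated operator. -/
noncomputable def maximal (ε : ℝ) (f : ℝ → ℂ) (x : ℝ) : ℝ≥0∞ :=
  ⨆ l : ℝ, ‖H ε l f x‖ₑ

end Q83.Carl
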