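import Pool.Agent.Q83.Carl.Select

/-!
The unbounded family of maximal operators.
-/

set_option autoImplicit false
open MeasureTheory Filter Topology Set
open scoped ENNReal NNReal Real SchwartzMap FourierTransform ContDiff

namespace Q83.Carl

lemma fourierInv_apply (F : 𝓢(ℝ, ℂ)) (x : ℝ) :
    (𝓕⁻ F : 𝓢(ℝ, ℂ)) x = ∫ z, F z * Complex.exp (2 * π * Complex.I * ((z * x : ℝ) : ℂ)) := by
  rw [SchwartzMap.fourierInv_coe, Real.fourierInv_eq']
  congr 1
  funext z
  rw [smul_eq_mul, mul_comm]
  congr 2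
  simp
  ring

lemma dq_fourierInv (F : 𝓢(ℝ, ℂ)) (M : ℝ) (hM : ∀ z, z ∉ Icc 1 M → F z = 0) (u x t : ℝ) :
    pw u t * dq (𝓕⁻ F : 𝓢(ℝ, ℂ)) x t = -2 * Complex.I * (pw u t / (t : ℂ) *
      ∫ z, (F z * Complex.exp (2 * π * Complex.I * ((z * x : ℝ) : ℂ))) *
        ((Real.sin (2 * π * z * t) : ℝ) : ℂ)) := by
  have hI : ∀ y : ℝ, Integrable fun z => F z * Complex.exp (2 * π * Complex.I * ((z * y : ℝ) : ℂ)) := by
    intro y
    apply integrable_P _ _ M
    · intro z hz
      rw [hM z hz, zero_mul]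
    · have := F.continuous
      fun_prop
  have h1 : (𝓕⁻ F : 𝓢(ℝ, ℂ)) (x - t) - (𝓕⁻ F : 𝓢(ℝ, ℂ)) (x + t) = -2 * Complex.I *
      ∫ z, (F z * Complex.exp (2 * π * Complex.I * ((z * x : ℝ) : ℂ))) *
        ((Real.sin (2 * π * z * t) : ℝ) : ℂ) := by
    rw [fourierInv_apply, fourierInv_apply, ← integral_sub (hI _) (hI _), ← integral_const_mul]
    congr 1
    funext z
    have h2 : Complex.exp (2 * π * Complex.I * ((z * (x - t) : ℝ) : ℂ)) =
        Complex.exp (2 * π * Complex.I * ((z * x : ℝ) : ℂ)) *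
          Complex.exp (-((2 * π * z * t : ℝ) : ℂ) * Complex.I) := by
      rw [← Complex.exp_add]
      congr 1
      push_cast
      ring
    have h3 : Complex.exp (2 * π * Complex.I * ((z * (x + t) : ℝ) : ℂ)) =
        Complex.exp (2 * π * Complex.I * ((z * x : ℝ) : ℂ)) *
          Complex.exp (((2 * π * z * t : ℝ) : ℂ) * Complex.I) := by
      rw [← Complex.exp_add]
      congr 1
      push_cast
      ring
    rw [h2, h3, Complex.ofReal_sin, Complex.sin]
    linear_combination (F z * Complex.exp (2 * π * Complex.I * ((z * x : ℝ) : ℂ)) *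
      (Complex.exp (-((2 * π * z * t : ℝ) : ℂ) * Complex.I) -
        Complex.exp (((2 * π * z * t : ℝ) : ℂ) * Complex.I))) * Complex.I_sq
  unfold dq
  rw [h1]
  ring

theorem T_formula (F : 𝓢(ℝ, ℂ)) (M : ℝ) (hM : ∀ z, z ∉ Icc 1 M → F z = 0) (u x : ℝ) :
    T (𝓕⁻ F : 𝓢(ℝ, ℂ)) u x = -2 * Complex.I * ((1 - Complex.I * (u : ℂ)) * (II u *
      ∫ z, (F z * Complex.exp (2 * π * Complex.I * ((z * x : ℝ) : ℂ))) *
        pw (-u) (2 * π * z))) := by
  have hP : Continuous fun z => F z * Complex.exp (2 * π * Complex.I * ((z * x : ℝ) : ℂ)) := by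
    have := F.continuous
    fun_prop
  have hPM : ∀ z, z ∉ Icc 1 M →
      F z * Complex.exp (2 * π * Complex.I * ((z * x : ℝ) : ℂ)) = 0 := by
    intro z hz
    rw [hM z hz, zero_mul]
  have h1 := integrableOn_dq (𝓕⁻ F : 𝓢(ℝ, ℂ)) x (pw u) (measurable_pw u) fun t => (norm_pw u t).le
  simp only [dq_fourierInv F M hM] at h1
  have h2 : IntegrableOn (fun t : ℝ => pw u t / (t : ℂ) *
      ∫ z, (F z * Complex.exp (2 * π * Complex.I * ((z * x : ℝ) : ℂ))) *
        ((Real.sin (2 * π * z * t) : ℝ) : ℂ)) (Ioi 0) := by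
    have h3 := Integrable.const_mul h1 ((-2 * Complex.I)⁻¹)
    refine h3.congr (ae_of_all _ fun t => ?_)
    have h4 : (-2 * Complex.I : ℂ) ≠ 0 := by simp
    simp only
    rw [inv_mul_cancel_left₀ h4]
  unfold T
  simp only [dq_fourierInv F M hM]
  rw [integral_const_mul, parts _ hP M hPM u h2, swap _ hP M hPM u]

/-- A bump function. -/
noncomputable def bump : ContDiffBump (0 : ℝ) := ⟨1 / 32, 1 / 16, by norm_num, by norm_num⟩

/-- The sum of the translated bumps. -/
noncomputable def psum (a : ℝ) (N : ℕ) (z : ℝ) : ℝ := ∑ j ∈ Finset.range N, bump (z - fr a j)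

lemma bump_zero (y : ℝ) (hy : 1 / 16 ≤ |y|) : bump y = 0 := by
  apply bump.zero_of_le_dist
  rw [Real.dist_eq, sub_zero]
  exact hy

lemma psum_zero (a : ℝ) (ha : 0 < a) (N : ℕ) (z : ℝ)
    (hz : z ∉ Icc 1 (∑ j ∈ Finset.range N, fr a j + 1)) : psum a N z = 0 := by
  unfold psum
  apply Finset.sum_eq_zero
  intro j hj
  apply bump_zero
  by_contra hc
  push Not at hc
  apply hz
  have h1 := fr_ge a ha j
  have h2 : fr a j ≤ ∑ j ∈ Finset.range N, fr a j :=
    Finset.single_le_sum (f := fun j => fr a j) (fun i _ => by linarith [fr_ge a ha i]) hj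
  rw [abs_lt] at hc
  constructor <;> linarith

lemma contDiff_psum (a : ℝ) (N : ℕ) : ContDiff ℝ ∞ (psum a N) := by
  unfold psum
  apply ContDiff.sum
  intro j _
  exact bump.contDiff.comp (contDiff_id.sub contDiff_const)

/-- The Fourier transform of the test function. -/
noncomputable def FF (a : ℝ) (ha : 0 < a) (N : ℕ) : 𝓢(ℝ, ℂ) :=
  HasCompactSupport.toSchwartzMap (f := fun z => (psum a N z : ℂ))
    (HasCompactSupport.intro (K := Icc 1 (∑ j ∈ Finset.range N, fr a j + 1)) isCompact_Icc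
      fun z hz => by rw [psum_zero a ha N z hz, Complex.ofReal_zero])
    (Complex.ofRealCLM.contDiff.comp (contDiff_psum a N))

lemma FF_apply (a : ℝ) (ha : 0 < a) (N : ℕ) (z : ℝ) : FF a ha N z = (psum a N z : ℂ) := rfl

lemma FF_zero (a : ℝ) (ha : 0 < a) (N : ℕ) (z : ℝ)
    (hz : z ∉ Icc 1 (∑ j ∈ Finset.range N, fr a j + 1)) : FF a ha N z = 0 := by
  rw [FF_apply, psum_zero a ha N z hz, Complex.ofReal_zero]

lemma integrable_bump : Integrable bump :=
  bump.continuous.integrable_of_hasCompactSupport bump.hasCompactSupport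

lemma integral_bump_pos : 0 < ∫ z, bump z := bump.integral_pos

lemma psum_sq (a : ℝ) (ha : 0 < a) (N : ℕ) (z : ℝ) :
    psum a N z ^ 2 = ∑ j ∈ Finset.range N, bump (z - fr a j) ^ 2 := by
  unfold psum
  rw [sq, Finset.sum_mul_sum]
  refine Finset.sum_congr rfl fun j hj => ?_
  rw [Finset.sum_eq_single j]
  · ring
  · intro k hk hkj
    have h1 : 1 ≤ |fr a j - fr a k| := by
      rcases lt_or_gt_of_ne hkj with h | h
      · have := fr_lt a ha k j h
        rw [abs_of_nonneg (by linarith)]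
        linarith
      · have := fr_lt a ha j k h
        rw [abs_of_nonpos (by linarith)]
        linarith
    by_cases h2 : 1 / 16 ≤ |z - fr a j|
    · rw [bump_zero _ h2, zero_mul]
    · rw [bump_zero (z - fr a k), mul_zero]
      push Not at h2
      have h3 : |fr a j - fr a k| ≤ |z - fr a j| + |z - fr a k| := by
        calc |fr a j - fr a k| = |(z - fr a k) - (z - fr a j)| := by ring_nf
          _ ≤ |z - fr a k| + |z - fr a j| := abs_sub _ _
          _ = _ := add_comm _ _
      linarith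
  · intro h
    exact absurd hj h

lemma norm_sq_FF (a : ℝ) (ha : 0 < a) (N : ℕ) :
    ∫ z, ‖FF a ha N z‖ ^ 2 = N * ∫ z, bump z ^ 2 := by
  have hI : Integrable fun z => bump z ^ 2 := by
    have : HasCompactSupport fun z => bump z ^ 2 := by
      refine HasCompactSupport.intro (K := Icc (-1) 1) isCompact_Icc fun z hz => ?_
      rw [bump_zero z, zero_pow two_ne_zero]
      by_contra hc
      push Not at hc
      rw [abs_lt] at hc
      exact hz ⟨by linarith, by linarith⟩
    exact (bump.continuous.pow 2).integrable_of_hasCompactSupport this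
  have h1 : ∀ z, ‖FF a ha N z‖ ^ 2 = ∑ j ∈ Finset.range N, bump (z - fr a j) ^ 2 := by
    intro z
    rw [FF_apply, Complex.norm_real, Real.norm_eq_abs, sq_abs, psum_sq a ha]
  simp only [h1]
  rw [integral_finsetSum _ (fun j _ => hI.comp_sub_right (fr a j))]
  simp only [integral_sub_right_eq_self (fun z => bump z ^ 2)]
  rw [Finset.sum_const, Finset.card_range, nsmul_eq_mul]

lemma term_bound (a : ℝ) (ha : 0 < a) (ha1 : a ≤ 1) (u x : ℝ) (hu0 : 0 ≤ u) (hu1 : u ≤ a) (hx : |x| ≤ 1)
    (j : ℕ) (k : ℤ) (hk : |u * LL a j - 2 * π * fr a j * x - 2 * π * k| ≤ 1 / 5) (z : ℝ) :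
    1 / 2 * bump (z - fr a j) ≤ ((bump (z - fr a j) : ℂ) *
      Complex.exp (2 * π * Complex.I * ((z * x : ℝ) : ℂ)) * pw (-u) (2 * π * z)).re := by
  by_cases hz : 1 / 16 ≤ |z - fr a j|
  · rw [bump_zero _ hz]
    simp
  · push Not at hz
    have hπ := Real.pi_pos
    have hπ2 := Real.pi_lt_d2
    have hfr := fr_ge a ha j
    have hz0 : 1 ≤ z := by
      rw [abs_lt] at hz
      linarith
    have h1 : (bump (z - fr a j) : ℂ) *
      Complex.exp (2 * π * Complex.I * ((z * x : ℝ) : ℂ)) * pw (-u) (2 * π * z) =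
      ((bump (z - fr a j) : ℝ) : ℂ) * Complex.exp (((2 * π * (z * x) - u * Real.log (2 * π * z) : ℝ) : ℂ) *
        Complex.I) := by
      unfold pw
      rw [mul_assoc, ← Complex.exp_add]
      congr 2
      push_cast
      ring
    rw [h1, Complex.re_ofReal_mul, Complex.exp_ofReal_mul_I_re, mul_comm]
    apply mul_le_mul_of_nonneg_left _ (bump.nonneg)
    have h2 : Real.cos (2 * π * (z * x) - u * Real.log (2 * π * z)) =
        Real.cos (|2 * π * (z * x) - u * Real.log (2 * π * z) + 2 * π * k|) := by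
      rw [Real.cos_abs, mul_comm (2 * π) (k : ℝ), Real.cos_add_int_mul_two_pi]
    have h3 : |Real.log (2 * π * z) - LL a j| ≤ 1 / 16 := by
      rw [← log_fr, ← Real.log_div (by positivity) (by positivity),
        mul_div_mul_left _ _ (by positivity)]
      have hfr0 : 0 < fr a j := by linarith
      have hq0 : 0 < z / fr a j := by positivity
      rw [abs_le]
      constructor
      · have h4 := Real.one_sub_inv_le_log_of_pos hq0
        have h5 : (z / fr a j)⁻¹ ≤ 1 + 1 / 16 := by
          rw [inv_div, div_le_iff₀ (by linarith)]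
          rw [abs_lt] at hz
          nlinarith
        linarith
      · have h4 := Real.log_le_sub_one_of_pos hq0
        have h5 : z / fr a j ≤ 1 + 1 / 16 := by
          rw [div_le_iff₀ hfr0]
          rw [abs_lt] at hz
          nlinarith
        linarith
    have h4 : |2 * π * (z * x) - u * Real.log (2 * π * z) + 2 * π * k| ≤ 1 := by
      have h5 : 2 * π * (z * x) - u * Real.log (2 * π * z) + 2 * π * k =
        2 * π * ((z - fr a j) * x) - u * (Real.log (2 * π * z) - LL a j) -
          (u * LL a j - 2 * π * fr a j * x - 2 * π * k) := by ring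
      rw [h5]
      have h6 : |2 * π * ((z - fr a j) * x)| ≤ 2 * 3.15 * (1 / 16 * 1) := by
        rw [abs_mul, abs_mul (z - fr a j), abs_of_pos (by positivity : 0 < 2 * π)]
        gcongr
      have h7 : |u * (Real.log (2 * π * z) - LL a j)| ≤ 1 * (1 / 16) := by
        rw [abs_mul, abs_of_nonneg hu0]
        gcongr
        linarith
      calc _ ≤ |2 * π * ((z - fr a j) * x) - u * (Real.log (2 * π * z) - LL a j)| +
            |u * LL a j - 2 * π * fr a j * x - 2 * π * k| := abs_sub _ _
        _ ≤ |2 * π * ((z - fr a j) * x)| + |u * (Real.log (2 * π * z) - LL a j)| +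
            |u * LL a j - 2 * π * fr a j * x - 2 * π * k| := by gcongr; exact abs_sub _ _
        _ ≤ 2 * 3.15 * (1 / 16 * 1) + 1 * (1 / 16) + 1 / 5 := by gcongr
        _ ≤ 1 := by norm_num
    rw [h2]
    calc (1 : ℝ) / 2 = Real.cos (π / 3) := (Real.cos_pi_div_three).symm
      _ ≤ _ := by
        apply Real.cos_le_cos_of_nonneg_of_le_pi (abs_nonneg _) (by linarith)
        linarith [Real.pi_gt_three]

lemma sum_bound (a : ℝ) (ha : 0 < a) (ha1 : a ≤ 1) (N : ℕ) (x : ℝ) (hx : |x| ≤ 1) :
    ∃ u : ℝ, 0 ≤ u ∧ u ≤ a ∧ N * (1 / 2 * ∫ z, bump z) ≤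
      ‖∫ z, (FF a ha N z * Complex.exp (2 * π * Complex.I * ((z * x : ℝ) : ℂ))) *
        pw (-u) (2 * π * z)‖ := by
  obtain ⟨u, hu0, hu1, hu⟩ := select a ha (fun j => 2 * π * fr a j * x) N
  refine ⟨u, hu0, hu1, ?_⟩
  set G : ℝ → ℂ := fun z => (FF a ha N z * Complex.exp (2 * π * Complex.I * ((z * x : ℝ) : ℂ))) *
        pw (-u) (2 * π * z) with hG
  have hint : Integrable G := by
    have h1 := (FF a ha N).integrable (μ := volume)
    refine Integrable.mono' h1.norm ?_ (ae_of_all _ fun z => ?_)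
    · have h2 := (FF a ha N).continuous.measurable
      have h3 := measurable_pw (-u)
      apply Measurable.aestronglyMeasurable
      rw [hG]
      fun_prop
    · rw [hG]
      simp only
      rw [norm_mul, norm_mul, norm_pw, mul_one,
        show 2 * (π : ℂ) * Complex.I * ((z * x : ℝ) : ℂ) = ((2 * π * (z * x) : ℝ) : ℂ) * Complex.I by
          push_cast; ring, Complex.norm_exp_ofReal_mul_I, mul_one]
  have h1 : (∫ z, G z).re = ∫ z, (G z).re := by
    have := integral_re hint
    exact this.symm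
  have h2 : N * (1 / 2 * ∫ z, bump z) ≤ ∫ z, (G z).re := by
    have h3 : (N : ℝ) * (1 / 2 * ∫ z, bump z) =
        ∫ z, ∑ j ∈ Finset.range N, 1 / 2 * bump (z - fr a j) := by
      rw [integral_finsetSum _ (fun j _ => (integrable_bump.comp_sub_right (fr a j)).const_mul _)]
      simp only [integral_const_mul, integral_sub_right_eq_self (fun z => bump z)]
      rw [Finset.sum_const, Finset.card_range, nsmul_eq_mul]
    rw [h3]
    apply integral_mono
    · exact integrable_finsetSum _ (fun j _ => (integrable_bump.comp_sub_right (fr a j)).const_mul _)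
    · exact hint.re
    · intro z
      simp only [hG, FF_apply]
      unfold psum
      rw [Complex.ofReal_sum, Finset.sum_mul, Finset.sum_mul, Complex.re_sum]
      apply Finset.sum_le_sum
      intro j hj
      obtain ⟨k, hk⟩ := hu j (Finset.mem_range.1 hj)
      exact term_bound a ha ha1 u x hu0 hu1 hx j k hk z
  calc N * (1 / 2 * ∫ z, bump z) ≤ (∫ z, G z).re := by rw [h1]; exact h2
    _ ≤ ‖∫ z, G z‖ := Complex.re_le_norm _

end Q83.Carl
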