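import Pool.Agent.Q83.Carl.Conv

/-!
The limiting operator on functions with spectrum in a compact subset of `(0, ∞)`.
-/

set_option autoImplicit false
open MeasureTheory Filter Topology Set
open scoped ENNReal NNReal Real SchwartzMap

namespace Q83.Carl

/-- The Mellin type integral. -/
noncomputable def II (u : ℝ) : ℂ :=
  ∫ s in Ioi (0 : ℝ), pw u s * (((1 - Real.cos s) / s ^ 2 : ℝ) : ℂ)

lemma cos_bound (b t : ℝ) (ht : 0 < t) :
    |(1 - Real.cos (b * t)) / t ^ 2| ≤ (b ^ 2 / 2 + 2) * (1 + t ^ 2)⁻¹ := by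
  have h1 : 0 ≤ 1 - Real.cos (b * t) := by linarith [Real.cos_le_one (b * t)]
  have h2 : 1 - Real.cos (b * t) ≤ b ^ 2 * t ^ 2 / 2 := by
    have := Real.one_sub_sq_div_two_le_cos (x := b * t)
    linarith [mul_pow b t 2]
  have h3 : 1 - Real.cos (b * t) ≤ 2 := by linarith [Real.neg_one_le_cos (b * t)]
  rw [abs_of_nonneg (by positivity), ← div_eq_mul_inv, div_le_div_iff₀ (by positivity) (by positivity)]
  have h4 : (1 - Real.cos (b * t)) * t ^ 2 ≤ 2 * t ^ 2 := by gcongr
  nlinarith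

lemma integrableOn_cos (b : ℝ) (m : ℝ → ℂ) (hm : Measurable m) (hm1 : ∀ t, ‖m t‖ ≤ 1) :
    IntegrableOn (fun t => m t * (((1 - Real.cos (b * t)) / t ^ 2 : ℝ) : ℂ)) (Ioi 0) := by
  have h1 : Integrable (fun t : ℝ => (b ^ 2 / 2 + 2) * (1 + t ^ 2)⁻¹) :=
    integrable_inv_one_add_sq.const_mul _
  refine Integrable.mono' h1.integrableOn (hm.mul (by fun_prop)).aestronglyMeasurable ?_
  refine (ae_restrict_iff' measurableSet_Ioi).2 (ae_of_all _ fun t ht => ?_)
  rw [norm_mul, Complex.norm_real, Real.norm_eq_abs]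
  calc ‖m t‖ * |(1 - Real.cos (b * t)) / t ^ 2| ≤ 1 * |(1 - Real.cos (b * t)) / t ^ 2| := by
        gcongr; exact hm1 t
    _ ≤ _ := by rw [one_mul]; exact cos_bound b t ht

lemma scale (u b : ℝ) (hb : 0 < b) :
    ∫ t in Ioi (0 : ℝ), pw u t * (((1 - Real.cos (b * t)) / t ^ 2 : ℝ) : ℂ) =
      (b : ℂ) * (pw (-u) b * II u) := by
  have h1 := integral_comp_mul_left_Ioi
    (fun s => pw u s * (((1 - Real.cos s) / s ^ 2 : ℝ) : ℂ)) 0 hb
  rw [mul_zero] at h1
  have h2 : ∀ t ∈ Ioi (0 : ℝ), pw u t * (((1 - Real.cos (b * t)) / t ^ 2 : ℝ) : ℂ) =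
      ((b ^ 2 : ℝ) : ℂ) * pw (-u) b *
        (pw u (b * t) * (((1 - Real.cos (b * t)) / (b * t) ^ 2 : ℝ) : ℂ)) := by
    intro t ht
    have ht' : (0 : ℝ) < t := ht
    have h3 : pw u (b * t) = pw u b * pw u t := by
      unfold pw
      rw [← Complex.exp_add, Real.log_mul hb.ne' ht'.ne']
      congr 1
      push_cast
      ring
    have h4 : pw (-u) b * pw u b = 1 := by
      unfold pw
      rw [← Complex.exp_add, ← Complex.exp_zero]
      congr 1
      push_cast
      ring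
    have h5 : (((1 - Real.cos (b * t)) / t ^ 2 : ℝ) : ℂ) = ((b ^ 2 : ℝ) : ℂ) *
        (((1 - Real.cos (b * t)) / (b * t) ^ 2 : ℝ) : ℂ) := by
      rw [← Complex.ofReal_mul]
      congr 1
      field_simp
    rw [h3, h5]
    linear_combination (-(((b ^ 2 : ℝ) : ℂ) * pw u t *
      (((1 - Real.cos (b * t)) / (b * t) ^ 2 : ℝ) : ℂ))) * h4
  rw [setIntegral_congr_fun measurableSet_Ioi h2, integral_const_mul, h1, II]
  rw [Complex.real_smul]
  have hb' : (b : ℂ) ≠ 0 := by exact_mod_cast hb.ne'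
  push_cast
  field_simp

section
variable (P : ℝ → ℂ) (hP : Continuous P) (M : ℝ) (hM : ∀ z, z ∉ Icc 1 M → P z = 0)
include hP hM

lemma integrable_P : Integrable P := by
  have h1 : HasCompactSupport P :=
    HasCompactSupport.intro isCompact_Icc hM
  exact hP.integrable_of_hasCompactSupport h1

/-- The primitive. -/
noncomputable def W (P : ℝ → ℂ) (t : ℝ) : ℂ :=
  ∫ z, P z * (((1 - Real.cos (2 * π * z * t)) / (2 * π * z) : ℝ) : ℂ)

omit hP hM in
lemma measW (t : ℝ) (hP : Continuous P) : AEStronglyMeasurable (fun z =>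
    P z * (((1 - Real.cos (2 * π * z * t)) / (2 * π * z) : ℝ) : ℂ)) := by
  have := hP.measurable
  exact (this.mul (by fun_prop)).aestronglyMeasurable

omit hP in
lemma ptbound (z t : ℝ) : ‖P z * (((1 - Real.cos (2 * π * z * t)) / (2 * π * z) : ℝ) : ℂ)‖ ≤
    ((2 * π * M) ^ 2 / 2 + 2) * (t ^ 2 * (1 + t ^ 2)⁻¹) * ‖P z‖ := by
  by_cases hz : z ∈ Icc 1 M
  · rcases eq_or_ne t 0 with rfl | ht
    · simp
    · have hz0 : 0 < z := lt_of_lt_of_le one_pos hz.1
      have h1 : (1 : ℝ) ≤ 2 * π * z := by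
        have := Real.pi_gt_three
        nlinarith [hz.1]
      have h2 := cos_bound (2 * π * z) |t| (abs_pos.2 ht)
      have h3 : Real.cos (2 * π * z * |t|) = Real.cos (2 * π * z * t) := by
        rcases abs_choice t with h | h <;> rw [h]
        rw [mul_neg, Real.cos_neg]
      rw [h3, sq_abs] at h2
      rw [norm_mul, Complex.norm_real, Real.norm_eq_abs, mul_comm]
      gcongr
      have h4 : |(1 - Real.cos (2 * π * z * t)) / (2 * π * z)| ≤
          |(1 - Real.cos (2 * π * z * t)) / t ^ 2| * t ^ 2 := by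
        rw [abs_div, abs_div, div_mul_eq_mul_div, abs_of_nonneg (sq_nonneg t),
          mul_div_assoc, div_self (by positivity), mul_one, abs_of_pos (by positivity : 0 < 2 * π * z)]
        exact div_le_self (abs_nonneg _) h1
      refine h4.trans ?_
      calc |(1 - Real.cos (2 * π * z * t)) / t ^ 2| * t ^ 2
          ≤ ((2 * π * z) ^ 2 / 2 + 2) * (1 + t ^ 2)⁻¹ * t ^ 2 := by gcongr
        _ ≤ ((2 * π * M) ^ 2 / 2 + 2) * (1 + t ^ 2)⁻¹ * t ^ 2 := by
          have := hz.2
          gcongr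
        _ = _ := by ring
  · rw [hM z hz]
    simp

lemma normW (t : ℝ) : ‖W P t‖ ≤ ((2 * π * M) ^ 2 / 2 + 2) * (t ^ 2 * (1 + t ^ 2)⁻¹) * ∫ z, ‖P z‖ := by
  unfold W
  rw [← integral_const_mul]
  exact norm_integral_le_of_norm_le ((integrable_P P hP M hM).norm.const_mul _)
    (ae_of_all _ fun z => ptbound P M hM z t)

lemma hasDerivAt_W (t : ℝ) :
    HasDerivAt (W P) (∫ z, P z * ((Real.sin (2 * π * z * t) : ℝ) : ℂ)) t := by
  have hI := integrable_P P hP M hM
  refine (hasDerivAt_integral_of_dominated_loc_of_deriv_le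
    (F := fun t z => P z * (((1 - Real.cos (2 * π * z * t)) / (2 * π * z) : ℝ) : ℂ))
    (F' := fun t z => P z * ((Real.sin (2 * π * z * t) : ℝ) : ℂ))
    (bound := fun z => ‖P z‖) (s := univ) univ_mem ?_ ?_ ?_ ?_ ?_ ?_).2
  · exact Eventually.of_forall fun t => measW P t hP
  · exact Integrable.mono' (hI.norm.const_mul (((2 * π * M) ^ 2 / 2 + 2) * (t ^ 2 * (1 + t ^ 2)⁻¹)))
      (measW P t hP) (ae_of_all _ fun z => ptbound P M hM z t)
  · have := hP.measurable
    exact (this.mul (by fun_prop)).aestronglyMeasurable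
  · refine ae_of_all _ fun z t _ => ?_
    rw [norm_mul, Complex.norm_real, Real.norm_eq_abs]
    exact mul_le_of_le_one_right (norm_nonneg _) (Real.abs_sin_le_one _)
  · exact hI.norm
  · refine ae_of_all _ fun z t _ => ?_
    by_cases hz : z ∈ Icc 1 M
    · have hz0 : 0 < z := lt_of_lt_of_le one_pos hz.1
      apply HasDerivAt.const_mul
      apply HasDerivAt.ofReal_comp
      have h1 : HasDerivAt (fun t => 2 * π * z * t) (2 * π * z) t := by
        simpa using (hasDerivAt_id t).const_mul (2 * π * z)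
      have h2 := ((h1.cos).const_sub 1).div_const (2 * π * z)
      refine h2.congr_deriv ?_
      field_simp
    · rw [hM z hz]
      simp only [zero_mul]
      exact hasDerivAt_const _ _

omit hP hM in
lemma hasDerivAt_pw (u t : ℝ) (ht : 0 < t) : HasDerivAt (fun t => pw u t / (t : ℂ))
    ((Complex.I * (u : ℂ) - 1) * (pw u t / (t : ℂ) ^ 2)) t := by
  have ht' : (t : ℂ) ≠ 0 := by exact_mod_cast ht.ne'
  have h1 : HasDerivAt (fun t : ℝ => Complex.I * ((u * Real.log t : ℝ) : ℂ))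
      (Complex.I * ((u * t⁻¹ : ℝ) : ℂ)) t := by
    apply HasDerivAt.const_mul
    apply HasDerivAt.ofReal_comp
    exact (Real.hasDerivAt_log ht.ne').const_mul u
  have h2 : HasDerivAt (pw u) (pw u t * (Complex.I * ((u * t⁻¹ : ℝ) : ℂ))) t := h1.cexp
  have h3 : HasDerivAt (fun t : ℝ => (t : ℂ)) 1 t := Complex.ofRealCLM.hasDerivAt
  refine (h2.div h3 ht').congr_deriv ?_
  push_cast
  field_simp

lemma parts (u : ℝ) (hint : IntegrableOn (fun t : ℝ => pw u t / (t : ℂ) *
      ∫ z, P z * ((Real.sin (2 * π * z * t) : ℝ) : ℂ)) (Ioi 0)) :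
    ∫ t in Ioi (0 : ℝ), pw u t / (t : ℂ) * ∫ z, P z * ((Real.sin (2 * π * z * t) : ℝ) : ℂ) =
      (1 - Complex.I * (u : ℂ)) * ∫ t in Ioi (0 : ℝ), pw u t / (t : ℂ) ^ 2 * W P t := by
  set K : ℝ := ((2 * π * M) ^ 2 / 2 + 2) * ∫ z, ‖P z‖ with hK
  have hK0 : 0 ≤ K := mul_nonneg (by positivity) (integral_nonneg fun _ => norm_nonneg _)
  have hnW : ∀ t, ‖W P t‖ ≤ K * (t ^ 2 * (1 + t ^ 2)⁻¹) := fun t => by
    refine (normW P hP M hM t).trans (le_of_eq ?_)
    rw [hK]
    ring
  have hcW : Continuous (W P) := continuous_iff_continuousAt.2 fun t =>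
    (hasDerivAt_W P hP M hM t).continuousAt
  have hI2 : IntegrableOn (fun t : ℝ => pw u t / (t : ℂ) ^ 2 * W P t) (Ioi 0) := by
    have h1 : Integrable (fun t : ℝ => K * (1 + t ^ 2)⁻¹) :=
      integrable_inv_one_add_sq.const_mul _
    refine Integrable.mono' h1.integrableOn ?_ ?_
    · have h2 := measurable_pw u
      have h3 := hcW.measurable
      exact (Measurable.mul (by fun_prop) h3).aestronglyMeasurable
    · refine (ae_restrict_iff' measurableSet_Ioi).2 (ae_of_all _ fun t ht => ?_)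
      have ht' : (0 : ℝ) < t := ht
      rw [norm_mul, norm_div, norm_pw, norm_pow, Complex.norm_real, Real.norm_eq_abs, sq_abs]
      calc 1 / t ^ 2 * ‖W P t‖ ≤ 1 / t ^ 2 * (K * (t ^ 2 * (1 + t ^ 2)⁻¹)) := by
            gcongr; exact hnW t
        _ = K * (1 + t ^ 2)⁻¹ := by field_simp
  have hb : ∀ t : ℝ, 0 < t → ‖pw u t / (t : ℂ) * W P t‖ ≤ K * (t * (1 + t ^ 2)⁻¹) := by
    intro t ht
    rw [norm_mul, norm_div, norm_pw, Complex.norm_real, Real.norm_eq_abs, abs_of_pos ht]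
    calc 1 / t * ‖W P t‖ ≤ 1 / t * (K * (t ^ 2 * (1 + t ^ 2)⁻¹)) := by
            gcongr; exact hnW t
        _ = K * (t * (1 + t ^ 2)⁻¹) := by field_simp
  have h0 : Tendsto ((fun t : ℝ => pw u t / (t : ℂ)) * W P) (𝓝[>] 0) (𝓝 0) := by
    rw [tendsto_zero_iff_norm_tendsto_zero]
    refine squeeze_zero' (Eventually.of_forall fun t => norm_nonneg _)
      (g := fun t => K * (t * (1 + t ^ 2)⁻¹)) ?_ ?_
    · filter_upwards [self_mem_nhdsWithin] with t ht
      exact hb t ht
    · have h1 : Continuous fun t : ℝ => K * (t * (1 + t ^ 2)⁻¹) := by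
        have : ∀ t : ℝ, 1 + t ^ 2 ≠ 0 := fun t => by positivity
        fun_prop (disch := assumption)
      have h2 := h1.tendsto 0
      simp only [zero_mul, mul_zero] at h2
      exact h2.mono_left nhdsWithin_le_nhds
  have h1 : Tendsto ((fun t : ℝ => pw u t / (t : ℂ)) * W P) atTop (𝓝 0) := by
    rw [tendsto_zero_iff_norm_tendsto_zero]
    refine squeeze_zero' (Eventually.of_forall fun t => norm_nonneg _)
      (g := fun t => K * t⁻¹) ?_ ?_
    · filter_upwards [eventually_gt_atTop 0] with t ht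
      refine (hb t ht).trans ?_
      gcongr
      rw [← div_eq_mul_inv, div_le_iff₀ (by positivity)]
      have : t⁻¹ * (1 + t ^ 2) = t⁻¹ + t := by field_simp
      rw [this]
      have : 0 < t⁻¹ := by positivity
      linarith
    · simpa using tendsto_inv_atTop_zero.const_mul K
  have h2 := integral_Ioi_mul_deriv_eq_deriv_mul (a := 0) (u := fun t : ℝ => pw u t / (t : ℂ))
    (v := W P) (u' := fun t => (Complex.I * (u : ℂ) - 1) * (pw u t / (t : ℂ) ^ 2))
    (v' := fun t => ∫ z, P z * ((Real.sin (2 * π * z * t) : ℝ) : ℂ))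
    (fun t ht => hasDerivAt_pw u t ht) (fun t _ => hasDerivAt_W P hP M hM t)
    hint (by
      have := hI2.const_mul (Complex.I * (u : ℂ) - 1)
      refine this.congr (ae_of_all _ fun t => ?_)
      simp only [Pi.mul_apply]
      ring) h0 h1
  rw [h2]
  have h3 : ∫ t in Ioi (0 : ℝ), (Complex.I * (u : ℂ) - 1) * (pw u t / (t : ℂ) ^ 2) * W P t =
      (Complex.I * (u : ℂ) - 1) * ∫ t in Ioi (0 : ℝ), pw u t / (t : ℂ) ^ 2 * W P t := by
    rw [← integral_const_mul]
    congr 1
    funext t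
    ring
  rw [h3]
  ring

lemma swap (u : ℝ) : ∫ t in Ioi (0 : ℝ), pw u t / (t : ℂ) ^ 2 * W P t =
    II u * ∫ z, P z * pw (-u) (2 * π * z) := by
  have hI := integrable_P P hP M hM
  set K : ℝ := ((2 * π * M) ^ 2 / 2 + 2) with hK
  have hK0 : 0 ≤ K := by positivity
  have h1 : ∫ t in Ioi (0 : ℝ), pw u t / (t : ℂ) ^ 2 * W P t = ∫ t in Ioi (0 : ℝ), ∫ z,
      pw u t / (t : ℂ) ^ 2 * (P z * (((1 - Real.cos (2 * π * z * t)) / (2 * π * z) : ℝ) : ℂ)) := by
    congr 1
    funext t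
    unfold W
    rw [integral_const_mul]
  rw [h1, integral_integral_swap, ← integral_const_mul]
  · congr 1
    funext z
    by_cases hz : z ∈ Icc 1 M
    · have hz0 : 0 < z := lt_of_lt_of_le one_pos hz.1
      have hb : 0 < 2 * π * z := by positivity
      have h2 : ∀ t : ℝ, pw u t / (t : ℂ) ^ 2 *
          (P z * (((1 - Real.cos (2 * π * z * t)) / (2 * π * z) : ℝ) : ℂ)) =
          (P z / ((2 * π * z : ℝ) : ℂ)) *
            (pw u t * (((1 - Real.cos (2 * π * z * t)) / t ^ 2 : ℝ) : ℂ)) := by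
        intro t
        push_cast
        ring
      simp only [h2]
      rw [integral_const_mul, scale u _ hb]
      have hb' : ((2 * π * z : ℝ) : ℂ) ≠ 0 := by exact_mod_cast hb.ne'
      rw [div_mul_eq_mul_div, mul_left_comm (P z), mul_div_assoc, mul_comm ((2 * π * z : ℝ) : ℂ),
        div_mul_cancel₀ _ hb']
      ring
    · simp only [hM z hz]
      simp
  · have h2 : Integrable (fun t : ℝ => K * (1 + t ^ 2)⁻¹) (volume.restrict (Ioi 0)) :=
      (integrable_inv_one_add_sq.const_mul _).integrableOn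
    refine Integrable.mono' (h2.mul_prod hI.norm) ?_ ?_
    · have h3 := measurable_pw u
      have h4 := hP.measurable
      apply Measurable.aestronglyMeasurable
      unfold Function.uncurry
      fun_prop
    · have h5 : ∀ᵐ w : ℝ × ℝ ∂((volume.restrict (Ioi 0)).prod volume), w.1 ∈ Ioi (0 : ℝ) := by
        have : ((volume.restrict (Ioi (0 : ℝ))).prod (volume : Measure ℝ)) =
            (volume.prod volume).restrict (Ioi (0 : ℝ) ×ˢ univ) := by
          rw [← Measure.prod_restrict, Measure.restrict_univ]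
        rw [this, ae_restrict_iff' (measurableSet_Ioi.prod MeasurableSet.univ)]
        exact ae_of_all _ fun w hw => hw.1
      filter_upwards [h5] with w hw
      have hw' : (0 : ℝ) < w.1 := hw
      simp only [Function.uncurry]
      rw [norm_mul, norm_div, norm_pw, norm_pow, Complex.norm_real, Real.norm_eq_abs, sq_abs]
      calc 1 / w.1 ^ 2 * ‖P w.2 * (((1 - Real.cos (2 * π * w.2 * w.1)) / (2 * π * w.2) : ℝ) : ℂ)‖
          ≤ 1 / w.1 ^ 2 * (K * (w.1 ^ 2 * (1 + w.1 ^ 2)⁻¹) * ‖P w.2‖) := by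
            gcongr
            exact ptbound P M hM w.2 w.1
        _ = K * (1 + w.1 ^ 2)⁻¹ * ‖P w.2‖ := by field_simp

end

end Q83.Carl
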