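import Pool.Agent.Q83.Carl.Mult

/-!
Lower bound for the multiplier constant, and selection of the modulation parameter.
-/

set_option autoImplicit false
open MeasureTheory Filter Topology Set
open scoped ENNReal NNReal Real SchwartzMap

namespace Q83.Carl

lemma integrableOn_real : IntegrableOn (fun s : ℝ => (1 - Real.cos s) / s ^ 2) (Ioi 0) := by
  have h1 : Integrable (fun t : ℝ => ((1 : ℝ) ^ 2 / 2 + 2) * (1 + t ^ 2)⁻¹) :=
    integrable_inv_one_add_sq.const_mul _
  refine Integrable.mono' h1.integrableOn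
    (by fun_prop : Measurable fun s : ℝ => (1 - Real.cos s) / s ^ 2).aestronglyMeasurable ?_
  refine (ae_restrict_iff' measurableSet_Ioi).2 (ae_of_all _ fun t ht => ?_)
  have := cos_bound 1 t ht
  rw [one_mul] at this
  rw [Real.norm_eq_abs]
  exact this

lemma continuous_II : Continuous II := by
  unfold II
  refine continuous_of_dominated (bound := fun s : ℝ => |(1 - Real.cos s) / s ^ 2|) ?_ ?_ ?_ ?_
  · intro u
    exact ((measurable_pw u).mul (by fun_prop)).aestronglyMeasurable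
  · intro u
    refine ae_of_all _ fun s => ?_
    rw [norm_mul, norm_pw, one_mul, Complex.norm_real, Real.norm_eq_abs]
  · exact integrableOn_real.norm
  · refine ae_of_all _ fun s => ?_
    unfold pw
    fun_prop

lemma II_zero : II 0 = ((∫ s in Ioi (0 : ℝ), (1 - Real.cos s) / s ^ 2 : ℝ) : ℂ) := by
  unfold II
  rw [← integral_complex_ofReal]
  congr 1
  funext s
  unfold pw
  simp

lemma norm_II_zero : 0 < ‖II 0‖ := by
  rw [II_zero, Complex.norm_real, Real.norm_eq_abs, abs_pos]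
  apply ne_of_gt
  rw [setIntegral_pos_iff_support_of_nonneg_ae]
  · refine lt_of_lt_of_le ?_ (measure_mono (s := Ioo (0 : ℝ) 1) ?_)
    · simp
    · intro s hs
      refine ⟨?_, hs.1⟩
      rw [Function.mem_support]
      have h1 : Real.cos s < 1 := by
        have := Real.cos_lt_one_div_sqrt_sq_add_one (x := s) (by linarith [hs.1, Real.pi_gt_three])
          (by linarith [hs.2, Real.pi_gt_three]) hs.1.ne'
        refine this.trans_le ?_
        rw [div_le_one (by positivity)]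
        exact Real.one_le_sqrt.2 (by nlinarith [sq_nonneg s])
      have h2 : 0 < 1 - Real.cos s := by linarith
      have h3 : 0 < s := hs.1
      positivity
  · refine (ae_restrict_iff' measurableSet_Ioi).2 (ae_of_all _ fun s hs => ?_)
    have : 0 ≤ 1 - Real.cos s := by linarith [Real.cos_le_one s]
    simp only [Pi.zero_apply]
    positivity
  · exact integrableOn_real

lemma exists_lower : ∃ a : ℝ, 0 < a ∧ a ≤ 1 ∧ ∀ u, 0 ≤ u → u ≤ a → ‖II 0‖ / 2 ≤ ‖II u‖ := by
  have h1 := continuous_II.norm.continuousAt (x := 0)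
  have h2 : ∀ᶠ u in 𝓝 (0 : ℝ), ‖II 0‖ / 2 < ‖II u‖ :=
    h1.eventually (Ioi_mem_nhds (by linarith [norm_II_zero]))
  obtain ⟨r, hr, h3⟩ := Metric.eventually_nhds_iff.1 h2
  refine ⟨min (r / 2) 1, by positivity, min_le_right _ _, fun u hu0 hu1 => (h3 ?_).le⟩
  rw [Real.dist_eq, sub_zero, abs_of_nonneg hu0]
  linarith [hu1.trans (min_le_left _ _)]

lemma select_aux (L θ : ℕ → ℝ) (a b δ : ℝ) (hδ : 0 < δ) (hab : a ≤ b) (hL : ∀ j, 0 < L j)
    (h0 : 2 * π + 2 * δ ≤ L 0 * (b - a))
    (h1 : ∀ j, (2 * π + 2 * δ) * L j ≤ 2 * δ * L (j + 1)) (N : ℕ) :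
    ∃ p q : ℝ, a ≤ p ∧ q ≤ b ∧ p ≤ q ∧ 2 * π + 2 * δ ≤ L N * (q - p) ∧
      ∀ u, p ≤ u → u ≤ q → ∀ j < N, ∃ k : ℤ, |u * L j - θ j - 2 * π * k| ≤ δ := by
  induction N with
  | zero => exact ⟨a, b, le_rfl, le_rfl, hab, h0, fun u _ _ j hj => absurd hj (Nat.not_lt_zero j)⟩
  | succ N ih =>
    obtain ⟨p, q, hap, hqb, hpq, hlen, hgood⟩ := ih
    have hπ := Real.pi_pos
    have hLN := hL N
    set k : ℤ := ⌈(p * L N + δ - θ N) / (2 * π)⌉ with hk
    have hk1 : (p * L N + δ - θ N) / (2 * π) ≤ k := Int.le_ceil _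
    have hk2 : (k : ℝ) < (p * L N + δ - θ N) / (2 * π) + 1 := Int.ceil_lt_add_one _
    rw [div_le_iff₀ (by positivity)] at hk1
    have hk2' : (k : ℝ) * (2 * π) < p * L N + δ - θ N + 2 * π := by
      have : ((p * L N + δ - θ N) / (2 * π) + 1) * (2 * π) = p * L N + δ - θ N + 2 * π := by
        field_simp
      rw [← this]
      gcongr
    set v : ℝ := θ N + 2 * π * k with hv
    have hp : p ≤ (v - δ) / L N := by
      rw [le_div_iff₀ hLN, hv]
      linarith
    have hq : (v + δ) / L N ≤ q := by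
      rw [div_le_iff₀ hLN, hv]
      nlinarith
    refine ⟨(v - δ) / L N, (v + δ) / L N, hap.trans hp, hq.trans hqb, ?_, ?_, ?_⟩
    · gcongr
      linarith
    · have : L (N + 1) * ((v + δ) / L N - (v - δ) / L N) = 2 * δ * L (N + 1) / L N := by
        field_simp
        ring
      rw [this, le_div_iff₀ hLN]
      exact h1 N
    · intro u hu1 hu2 j hj
      rcases Nat.lt_succ_iff_lt_or_eq.1 hj with h | h
      · exact hgood u (hp.trans hu1) (hu2.trans hq) j h
      · subst h
        refine ⟨k, ?_⟩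
        rw [div_le_iff₀ hLN] at hu1
        rw [le_div_iff₀ hLN] at hu2
        rw [abs_le]
        constructor <;> linarith

/-- The frequencies in logarithmic scale. -/
noncomputable def LL (a : ℝ) (j : ℕ) : ℝ := ((2 * π + 2 / 5) / a + 4 * π) * 20 ^ j

lemma LL_pos (a : ℝ) (ha : 0 < a) (j : ℕ) : 0 < LL a j := by
  unfold LL
  have := Real.pi_pos
  positivity

lemma LL_ge (a : ℝ) (ha : 0 < a) (j : ℕ) : 4 * π ≤ LL a j := by
  unfold LL
  have h1 := Real.pi_pos
  have h2 : (1 : ℝ) ≤ 20 ^ j := one_le_pow₀ (by norm_num)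
  have h3 : 0 ≤ (2 * π + 2 / 5) / a := by positivity
  nlinarith

lemma LL_succ (a : ℝ) (j : ℕ) : LL a (j + 1) = 20 * LL a j := by
  unfold LL
  rw [pow_succ]
  ring

lemma select (a : ℝ) (ha : 0 < a) (θ : ℕ → ℝ) (N : ℕ) :
    ∃ u : ℝ, 0 ≤ u ∧ u ≤ a ∧ ∀ j < N, ∃ k : ℤ, |u * LL a j - θ j - 2 * π * k| ≤ 1 / 5 := by
  have hπ := Real.pi_pos
  obtain ⟨p, q, h1, h2, h3, -, h4⟩ := select_aux (LL a) θ 0 a (1 / 5) (by norm_num) ha.le
    (LL_pos a ha) (by
      unfold LL
      rw [pow_zero, mul_one, sub_zero, add_mul, div_mul_cancel₀ _ ha.ne']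
      nlinarith) (fun j => by
      rw [LL_succ]
      have h1 := LL_pos a ha j
      have h2 := Real.pi_lt_d2
      nlinarith) N
  exact ⟨p, h1, h3.trans h2, fun j hj => h4 p le_rfl h3 j hj⟩

/-- The frequencies. -/
noncomputable def fr (a : ℝ) (j : ℕ) : ℝ := Real.exp (LL a j) / (2 * π)

lemma fr_ge (a : ℝ) (ha : 0 < a) (j : ℕ) : 2 ≤ fr a j := by
  unfold fr
  have hπ := Real.pi_pos
  rw [le_div_iff₀ (by positivity)]
  have := Real.add_one_le_exp (LL a j)
  linarith [LL_ge a ha j]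

lemma fr_succ (a : ℝ) (ha : 0 < a) (j : ℕ) : fr a j + 1 ≤ fr a (j + 1) := by
  unfold fr
  have hπ := Real.pi_pos
  rw [div_add_one (by positivity)]
  gcongr
  rw [LL_succ, show 20 * LL a j = LL a j + 19 * LL a j by ring, Real.exp_add]
  have h1 := Real.add_one_le_exp (LL a j)
  have h2 := Real.add_one_le_exp (19 * LL a j)
  have h3 := LL_ge a ha j
  have h4 : 1 ≤ Real.exp (LL a j) := by linarith
  nlinarith

lemma fr_lt (a : ℝ) (ha : 0 < a) (j k : ℕ) (h : j < k) : fr a j + 1 ≤ fr a k := by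
  induction k, h using Nat.le_induction with
  | base => exact fr_succ a ha j
  | succ k _ ih => linarith [fr_succ a ha k]

lemma log_fr (a : ℝ) (j : ℕ) : Real.log (2 * π * fr a j) = LL a j := by
  unfold fr
  have hπ := Real.pi_pos
  rw [mul_div_cancel₀ _ (by positivity), Real.log_exp]

end Q83.Carl
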